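import Pool.Agent.K1H13.G.Wei5

/-!
# The exact cost of a Frobenius endomorphism which is not semisimple

Let `X` be a smooth projective variety over an algebraic closure of a finite field, and let `H` be
a Weil cohomology theory with coefficients in an algebraically closed field. If the Frobenius
endomorphism is not semisimple on `H(X)`, then the generalised Tate classes, the Tate classes and
the rank of the intersection form on the Tate classes of the powers `X^n` have three different
orders of growth: the quotients are `√n` and `n`, up to a constant which depends only on the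
dimension of `H(X)`. If the Frobenius endomorphism is semisimple, the three numbers agree on all
powers. So the Frobenius endomorphism on `H(X)` is semisimple as soon as, on one power `X^n`, there
are more Tate classes than `C n^(-1/2)` times the number of the generalised Tate classes, or the
cycles modulo numerical equivalence have rank more than `C / n` times the number of the Tate
classes.
-/

open CategoryTheory AlgebraicGeometry

universe u v

namespace Pool.Agent.Results.MP_93fb11_ag.ExactOrders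

open Module
open Pool.Agent.H914 Pool.Agent.H914.VarClass Pool.Agent.H914.VarClass.Obj
  Pool.Agent.H914.WeilCohomology Pool.Agent.W534 Pool.Agent.Y133.Half Pool.Agent.K1H13.G

/-- The number `x` lies between `1 / C` times and `C` times the number `y`. -/
def Comparable (C x y : ℝ) : Prop := x ≤ C * y ∧ y ≤ C * x

/-- **The exact orders.** -/
theorem result (b : ℕ) : ∃ C : ℝ, 0 < C ∧ ∀ {k : Type u} [Field k] {𝒱 : VarClass k}
    {ops : CycleOps 𝒱} (W : WeilCohomology.{u, v} ops) [IsAlgClosed W.K] {p : ℕ}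
    (Φ : FrobSystem W p) (X : 𝒱.Obj), finrank W.K (W.H X) = b →
    -- (1) the semisimple case
    (FrobSemisimple Φ X → ∀ n, tateDim Φ (pw X n) = genTateDim Φ (pw X n) ∧
      tateFormRank Φ (pw X n) = genTateDim Φ (pw X n)) ∧
    -- (2) the exact orders in the other case; `pw X n` is the product of `n + 1` copies of `X`
    (¬ FrobSemisimple Φ X → ∀ n : ℕ,
      Comparable C (genTateDim Φ (pw X n)) (Real.sqrt (n + 1) * tateDim Φ (pw X n)) ∧
      Comparable C (tateDim Φ (pw X n)) ((n + 1) * tateFormRank Φ (pw X n)) ∧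
      (b : ℝ) ^ (n + 1) ≤ C * (n + 1) ^ b * genTateDim Φ (pw X n)) ∧
    -- (3) one power suffices: Tate classes, algebraic classes
    (∀ n : ℕ, C * genTateDim Φ (pw X n) < Real.sqrt (n + 1) * tateDim Φ (pw X n) →
      FrobSemisimple Φ X) ∧
    (∀ n : ℕ, C * genTateDim Φ (pw X n) < Real.sqrt (n + 1) * algDim W (pw X n) →
      FrobSemisimple Φ X) ∧
    -- (4) one power suffices: the cycles modulo numerical equivalence
    (∀ n : ℕ, C * tateDim Φ (pw X n) < (n + 1) * cycRank ops (pw X n) → FrobSemisimple Φ X) ∧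
    ∀ n : ℕ, C * genTateDim Φ (pw X n) < Real.sqrt (n + 1) ^ 3 * cycRank ops (pw X n) →
      FrobSemisimple Φ X := by
  obtain ⟨C₀, hC0, hC⟩ := ns_law.{u, v} b
  set C : ℝ := C₀ + C₀ ^ 2 + b * 2 ^ b with hCd
  have hb0 : (0 : ℝ) ≤ b := Nat.cast_nonneg _
  have hb2 : (0 : ℝ) ≤ b * 2 ^ b := by positivity
  have hle : C₀ ≤ C := by have := sq_nonneg C₀; rw [hCd]; linarith
  have hle2 : C₀ ^ 2 ≤ C := by rw [hCd]; linarith
  have hle3 : (b : ℝ) * 2 ^ b ≤ C := by have := sq_nonneg C₀; rw [hCd]; linarith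
  have hCpos : 0 < C := lt_of_lt_of_le hC0 hle
  refine ⟨C, hCpos, ?_⟩
  intro k _ 𝒱 ops W _ p Φ X hb
  have hns : ¬ FrobSemisimple Φ X → ∀ n : ℕ,
      Comparable C (genTateDim Φ (pw X n)) (Real.sqrt (n + 1) * tateDim Φ (pw X n)) ∧
      Comparable C (tateDim Φ (pw X n)) ((n + 1) * tateFormRank Φ (pw X n)) ∧
      (b : ℝ) ^ (n + 1) ≤ C * (n + 1) ^ b * genTateDim Φ (pw X n) ∧
      Real.sqrt (n + 1) ^ 3 * tateFormRank Φ (pw X n) ≤ C * genTateDim Φ (pw X n) := by
    intro h n
    obtain ⟨⟨h1, h2, h3, h4⟩, h5⟩ := hC Φ hb h n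
    set g : ℝ := (genTateDim Φ (pw X n) : ℝ)
    set t : ℝ := (tateDim Φ (pw X n) : ℝ)
    set f : ℝ := (tateFormRank Φ (pw X n) : ℝ)
    have hg : 0 ≤ g := Nat.cast_nonneg _
    have ht : 0 ≤ t := Nat.cast_nonneg _
    have hf : 0 ≤ f := Nat.cast_nonneg _
    set s : ℝ := Real.sqrt (n + 1) with hs
    have hs1 : 1 ≤ s := by
      rw [hs, Real.one_le_sqrt]
      have : (0 : ℝ) ≤ n := Nat.cast_nonneg _
      linarith
    have hs0 : 0 < s := by linarith
    have hsq : s * s = n + 1 := Real.mul_self_sqrt (by positivity)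
    refine ⟨⟨?_, ?_⟩, ⟨?_, ?_⟩, ?_, ?_⟩
    · calc g ≤ C₀ * s * t := h1
        _ = C₀ * (s * t) := by ring
        _ ≤ C * (s * t) := by gcongr
    · calc s * t = t * s := mul_comm _ _
        _ ≤ C₀ * g := h2
        _ ≤ C * g := by gcongr
    · have h6 : t * s ≤ (C₀ ^ 2 * ((n + 1) * f)) * s := by
        calc t * s ≤ C₀ * g := h2
          _ ≤ C₀ * (C₀ * s ^ 3 * f) := by gcongr
          _ = C₀ ^ 2 * ((s * s) * f) * s := by ring
          _ = _ := by rw [hsq]
      have h7 : t ≤ C₀ ^ 2 * ((n + 1) * f) := le_of_mul_le_mul_right h6 hs0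
      refine h7.trans ?_
      gcongr
    · have h6 : ((n + 1) * f) * s ≤ (C₀ ^ 2 * t) * s := by
        calc ((n + 1) * f) * s = f * s ^ 3 := by rw [← hsq]; ring
          _ ≤ C₀ * g := h4
          _ ≤ C₀ * (C₀ * s * t) := by gcongr
          _ = _ := by ring
      have h7 : (n + 1) * f ≤ C₀ ^ 2 * t := le_of_mul_le_mul_right h6 hs0
      refine h7.trans ?_
      gcongr
    · have h6 : (b : ℝ) ^ (n + 1) ≤ b * (n + 2) ^ b * g := by
        have h8 := (Nat.cast_le (α := ℝ)).2 h5
        push_cast at h8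
        exact h8
      have h7 : ((n : ℝ) + 2) ^ b ≤ 2 ^ b * (n + 1) ^ b := by
        rw [← mul_pow]
        have : (0 : ℝ) ≤ n := Nat.cast_nonneg _
        gcongr
        linarith
      calc (b : ℝ) ^ (n + 1) ≤ b * (n + 2) ^ b * g := h6
        _ ≤ b * (2 ^ b * (n + 1) ^ b) * g := by gcongr
        _ = (b * 2 ^ b) * (n + 1) ^ b * g := by ring
        _ ≤ C * (n + 1) ^ b * g := by gcongr
    · calc s ^ 3 * f = f * s ^ 3 := mul_comm _ _
        _ ≤ C₀ * g := h4
        _ ≤ C * g := by gcongr
  refine ⟨fun h n => ss_law Φ h n, fun h n => ⟨(hns h n).1, (hns h n).2.1, (hns h n).2.2.1⟩,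
    fun n h => ?_, fun n h => ?_, fun n h => ?_, fun n h => ?_⟩
  · by_contra hcon
    exact absurd h (not_lt.2 (hns hcon n).1.2)
  · by_contra hcon
    refine absurd h (not_lt.2 (le_trans ?_ (hns hcon n).1.2))
    have : (algDim W (pw X n) : ℝ) ≤ tateDim Φ (pw X n) := by exact_mod_cast algDim_le Φ _
    gcongr
  · by_contra hcon
    refine absurd h (not_lt.2 (le_trans ?_ (hns hcon n).2.1.2))
    have : (cycRank ops (pw X n) : ℝ) ≤ tateFormRank Φ (pw X n) := by exact_mod_cast cycRank_le Φ _
    gcongr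
  · by_contra hcon
    refine absurd h (not_lt.2 (le_trans ?_ (hns hcon n).2.2.2))
    have : (cycRank ops (pw X n) : ℝ) ≤ tateFormRank Φ (pw X n) := by exact_mod_cast cycRank_le Φ _
    gcongr

end Pool.Agent.Results.MP_93fb11_ag.ExactOrders
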