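import Pool.Agent.K1H13.S.HomSS
import Pool.Agent.R940.DFin

/-!
# A Frobenius endomorphism which is not semisimple makes almost all cycles on the powers degenerate

Let `X` be a smooth projective variety over (the algebraic closure of) a finite field whose
Frobenius endomorphism does not act semisimply on the cohomology. Then, with respect to the space
spanned by the classes of the algebraic cycles on `X^n`, the cycles modulo numerical equivalence
become negligible for `n → ∞`; with respect to the space of the Tate classes on `X^n`, the rank of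
the intersection form on the Tate classes becomes negligible, and so does the rank of the cycles
modulo numerical equivalence. The first ratio is at least of the order of `log n`, with explicit
constants. So Frobenius is semisimple as soon as on infinitely many powers (or on one power with
an effective bound) a positive proportion of the algebraic classes, or of the Tate classes, is
detected by intersection numbers.
-/

open CategoryTheory AlgebraicGeometry Filter Topology

universe u v

namespace Pool.Agent.Results.MP_93fb11_ag.NonSemisimpleGrowth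

open Module
open Pool.Agent.H914 Pool.Agent.H914.VarClass Pool.Agent.H914.VarClass.Obj
  Pool.Agent.H914.WeilCohomology Pool.Agent.W534 Pool.Agent.H281R3.HT Pool.Agent.Y133.Half
  Pool.Agent.K1H13.S

variable {k : Type u} [Field k] {𝒱 : VarClass k} {ops : CycleOps 𝒱}

/-- The linear combinations of Tate classes on `Y` whose intersection numbers with all Tate classes
vanish. -/
def tateNull {W : WeilCohomology.{u, v} ops} {p : ℕ} (Φ : FrobSystem W p) (Y : 𝒱.Obj) :
    Set (W.H Y) :=
  {c | c ∈ Submodule.span W.K (tateSet Φ Y) ∧ ∀ d ∈ tateSet Φ Y, W.tr Y (c * d) = 0}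

/-- The rank of the intersection form on the space of the Tate classes of all degrees on `Y`. -/
noncomputable def tateFormRank {W : WeilCohomology.{u, v} ops} {p : ℕ} (Φ : FrobSystem W p)
    (Y : 𝒱.Obj) : ℕ :=
  tateDim Φ Y - dimOf W (tateNull Φ Y)

/-- The dimension of the space of the Tate classes of degree `2 j` on `Y`. -/
noncomputable def tateRank {W : WeilCohomology.{u, v} ops} {p : ℕ} (Φ : FrobSystem W p)
    (Y : 𝒱.Obj) (j : ℕ) : ℕ :=
  dimOf W {c | IsTate Φ Y j c}

variable {W : WeilCohomology.{u, v} ops} {p : ℕ} (Φ : FrobSystem W p) {X Y : 𝒱.Obj}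

lemma tateNull_eq : tateNull Φ Y = ((trueTateSys Φ).Num Y : Set (W.H Y)) := by
  ext c
  constructor
  · rintro ⟨h1, h2⟩
    refine ⟨h1, fun d hd => ?_⟩
    have hd' : d ∈ TSpan Φ Y := hd
    refine TSpan.ind (q := fun d => W.tr Y (c * d) = 0) ?_ ?_ ?_ ?_ hd'
    · intro j x hx; exact h2 x ⟨j, hx⟩
    · rw [mul_zero, map_zero]
    · intro a b ha hb; rw [mul_add, map_add, ha, hb, add_zero]
    · intro r a ha; rw [mul_smul_comm, map_smul, ha, smul_zero]
  · rintro ⟨h1, h2⟩
    exact ⟨h1, fun d hd => h2 d (Submodule.subset_span hd)⟩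

lemma tateFormRank_eq : tateFormRank Φ Y = (trueTateSys Φ).a Y := by
  have h := (trueTateSys Φ).a_add_num Y
  have h1 : dimOf W (tateNull Φ Y) = finrank W.K ((trueTateSys Φ).Num Y) := by
    rw [dimOf, Set.finrank, tateNull_eq, Submodule.span_eq]
  have h2 : tateDim Φ Y = finrank W.K ((trueTateSys Φ).C Y) := rfl
  rw [tateFormRank, h1, h2]
  exact (Nat.eq_sub_of_add_eq h).symm

lemma algDim_le (Y : 𝒱.Obj) : algDim W Y ≤ tateDim Φ Y := by
  rw [algDim_eq, tateDim_eq]
  exact Submodule.finrank_mono (alg_le_trueTate Φ Y)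

lemma tateRank_eq (j : ℕ) : tateRank Φ Y j = finrank W.K (tateSub Φ Y j) := by
  have h1 : Submodule.span W.K {c | IsTate Φ Y j c} = tateSub Φ Y j :=
    Submodule.span_eq (tateSub Φ Y j)
  rw [tateRank, dimOf, Set.finrank, h1]

lemma algRank_le (j : ℕ) : Pool.Agent.R940.algRank W Y j ≤ tateRank Φ Y j := by
  rw [tateRank_eq, Pool.Agent.R940.algRank]
  apply Submodule.finrank_mono
  intro c hc
  induction hc using Submodule.span_induction with
  | mem x hx =>
    obtain ⟨r, hr, z, hz, rfl⟩ := hx
    obtain rfl : r = j := by exact_mod_cast hr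
    exact ⟨W.cl_mem hz, Φ.cyc hz⟩
  | zero => exact Submodule.zero_mem _
  | add a b _ _ ha hb => exact Submodule.add_mem _ ha hb
  | smul r a _ ha => exact Submodule.smul_mem _ _ ha

/-- **Growth if Frobenius is not semisimple.** -/
theorem result (hF : ¬ FrobSemisimple Φ X) :
    -- (1) the cycles on `X^n` modulo numerical equivalence and the algebraic classes
    Tendsto (fun n => (cycRank ops (pw X n) : ℝ) / algDim W (pw X n)) atTop (𝓝 0) ∧
    -- (2) the intersection form on the Tate classes on `X^n`
    Tendsto (fun n => (tateFormRank Φ (pw X n) : ℝ) / tateDim Φ (pw X n)) atTop (𝓝 0) ∧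
    -- (3) the cycles on `X^n` modulo numerical equivalence and the Tate classes
    Tendsto (fun n => (cycRank ops (pw X n) : ℝ) / tateDim Φ (pw X n)) atTop (𝓝 0) ∧
    -- (4) an effective form in the middle degree of `X^(2 n + 2)`
    (Pool.Agent.H447.SignStd W X → ∀ D : X.Cycles, X.IsCyc 1 D → Pool.Agent.Y163.Big ops X D →
      ∀ n : ℕ, Real.log (n + 2) / (64 * (1 + Real.log (Pool.Agent.R940.betti W X + 1))) *
          numRank ops (Pool.Agent.Y163.sq X n) ((n + 1) * X.dim) ≤
            Pool.Agent.R940.algRank W (Pool.Agent.Y163.sq X n) ((n + 1) * X.dim) ∧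
        Pool.Agent.R940.algRank W (Pool.Agent.Y163.sq X n) ((n + 1) * X.dim) ≤
          tateRank Φ (Pool.Agent.Y163.sq X n) ((n + 1) * X.dim)) := by
  have h1 : Tendsto (fun n => (cycRank ops (pw X n) : ℝ) / algDim W (pw X n)) atTop (𝓝 0) := by
    refine (d_law W X).resolve_left fun h => hF ?_
    exact frobSemisimple_of_homEqNum Φ (h 1)
  refine ⟨h1, ?_, ?_, ?_⟩
  · have h2 := ((trueTateSys Φ).num_or (trueTateSys Φ) (fun _ => le_rfl) X).resolve_left
      fun h => hF (frobSemisimple_of_num Φ (trueTateSys Φ) (fun c hc => hc) (h 1))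
    rw [Metric.tendsto_atTop]
    intro ε hε
    obtain ⟨N, hN⟩ := exists_nat_gt (1 / ε)
    obtain ⟨n₀, hn₀⟩ := h2 (N + 1)
    refine ⟨n₀, fun n hn => ?_⟩
    have h3 := hn₀ n hn
    rw [← tateFormRank_eq] at h3
    have h4 : ((N : ℝ) + 1) * tateFormRank Φ (pw X n) ≤ tateDim Φ (pw X n) := by
      have : (N + 1) * tateFormRank Φ (pw X n) ≤ tateDim Φ (pw X n) := h3
      exact_mod_cast this
    have h5 : (0 : ℝ) ≤ tateFormRank Φ (pw X n) := Nat.cast_nonneg _
    rw [Real.dist_eq, sub_zero, abs_of_nonneg (div_nonneg h5 (Nat.cast_nonneg _))]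
    rcases Nat.eq_zero_or_pos (tateDim Φ (pw X n)) with h6 | h6
    · rw [h6, Nat.cast_zero, div_zero]; exact hε
    have h7 : (0 : ℝ) < tateDim Φ (pw X n) := by exact_mod_cast h6
    rw [div_lt_iff₀ h7]
    have h8 : 1 < ε * N := by
      have := mul_lt_mul_of_pos_left hN hε
      rwa [mul_one_div_cancel hε.ne'] at this
    calc (tateFormRank Φ (pw X n) : ℝ) ≤ ε * N * tateFormRank Φ (pw X n) := by nlinarith
      _ < ε * tateDim Φ (pw X n) := by
          rw [mul_assoc]
          apply mul_lt_mul_of_pos_left _ hε
          rcases h5.lt_or_eq with h9 | h9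
          · nlinarith
          · rw [← h9]; simpa using h7
  · refine squeeze_zero (fun n => by positivity) (fun n => ?_) h1
    have h2 : (algDim W (pw X n) : ℝ) ≤ tateDim Φ (pw X n) := by exact_mod_cast algDim_le Φ _
    rcases Nat.eq_zero_or_pos (algDim W (pw X n)) with h3 | h3
    · have h4 : cycRank ops (pw X n) = 0 := by
        rw [← numDim_eq_cycRank W, ← numDim_eq]
        unfold numDim
        omega
      rw [h4]
      simp
    · have h4 : (0 : ℝ) < algDim W (pw X n) := by exact_mod_cast h3
      exact div_le_div_of_nonneg_left (Nat.cast_nonneg _) h4 h2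
  · intro hS D hD hbig n
    refine ⟨?_, algRank_le Φ _⟩
    have h2 := ((Pool.Agent.R940.d_law hS hD hbig).2 1).resolve_left
      fun h => hF (frobSemisimple_of_homEqNum Φ h)
    have h3 := h2.2 n
    refine le_trans (le_of_eq ?_) h3
    push_cast
    norm_num

end Pool.Agent.Results.MP_93fb11_ag.NonSemisimpleGrowth
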