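import Pool.Agent.K1H70.FP.Sym

/-!
# Semisimplicity of Frobenius for varieties with symmetries

Let `𝒳` be a smooth projective variety over a finite field `k` and `G` a group of automorphisms of `𝒳` over `k`
(any group, for instance the whole automorphism group). Let `K i` be finite abelian subgroups of `G` of order
`p i ^ r i`, where the `p i` are any primes (they may be different, and one of them may be the prime of the
coefficients of the cohomology), and `ψ i ≠ 1` a character of `K i`. Assume that the `K i` act trivially on the
cohomology groups of all degrees except one degree `n`, for example that `𝒳` is a complete intersection of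
dimension `n`, or a surface with trivial first Betti number (`n = 2`).

`S` is the set of the geometric points of `𝒳`, `Fr` the Frobenius of `𝒳`, a permutation of `S` that commutes with
`G`; `V = H^n(𝒳, E)` with `E` an algebraic closure of the field of `ℓ`-adic numbers, `Φ` the Frobenius on `V` and
`ρ g` the automorphism of `V` given by the inverse of `g`. The Grothendieck-Lefschetz formula for the composition of
the `m`-th power of the Frobenius with the inverse of `g` is `hL`: the fixed points are the `x` with
`Fr ^ m x = g x`, and `c m` is the contribution of the degrees different from `n`, which does not depend on `g`.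

Let `𝒴 i` be the part of the quotient `𝒳 / K i` where the stabilizers (in `K i`) are contained in the kernel of
`ψ i`; the number of its points over the extension of degree `m` is `orbCount Fr (K i) (ψ i) m`. By Dwork and
Grothendieck its zeta function `exp (∑ orbCount Fr (K i) (ψ i) m T ^ m / m)` is a quotient of integral polynomials
with constant term `1`. `H i` is the reduction modulo `p i` of its inverse (`n` even) or of the zeta function itself
(`n` odd), a polynomial. (It is the reduction of the characteristic polynomial of Frobenius on the part `V i` of `V`
where `K i` acts by `ψ i`, so it always exists. Its degree is the dimension of `V i` if all the eigenvalues of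
Frobenius are prime to `p i`, which is always true if `p i` is not the characteristic of `k`.)

Theorem: if all the `H i` are squarefree (and of degree `dim V i`), and `V` is spanned by the `G`-translates of the
`V i` and by eigenvectors of Frobenius (such as the classes of divisors for `n = 2`), then the Frobenius is
semisimple on `V`.

Our previous hand-in (now contained in this one) was the case where `G` itself is abelian of prime power order and all
`K i` are equal to `G`. New are noncommutative groups and several primes. If `V` has constituents of dimension `d > 1`
as a representation of `G`, then the multiplicities of the eigenvalues of Frobenius on their isotypic part are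
multiples of `d`, so that no polynomial attached to this part can be squarefree; but the `G`-translates of a
small part suffice. For instance let `χ` be an irreducible representation of `G` induced from a character `ψ` of an
abelian subgroup `K` of prime power order (all irreducible representations of a Heisenberg group of order `p ^ 3`
are of this form): the isotypic part of `χ` is generated by the part of `V` where `K` acts by `ψ`, and the dimension of
this part is the multiplicity of `χ` in `V`.
-/

set_option autoImplicit false

namespace Pool.Agent.Results.MP_93fb11_ag.SymmetryGroups

open Polynomial Pool.Agent.K1H70.FP Pool.Agent.K1H70.FS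

theorem result
    -- the geometric points, the Frobenius, the symmetries
    (G : Type) [Group G] (S : Type) [MulAction G S] (Fr : Equiv.Perm S)
    (hFr : ∀ (g : G) (x : S), Fr (g • x) = g • Fr x)
    -- the cohomology of degree `n`
    (E : Type) [Field E] [CharZero E] [IsAlgClosed E]
    (V : Type) [AddCommGroup V] [Module E V] [FiniteDimensional E V]
    (Φ : Module.End E V) (ρ : G →* Module.End E V) (hc : ∀ g, Commute Φ (ρ g)) (n : ℕ) (c : ℕ → E)
    -- abelian subgroups of prime power order and their characters
    (ι : Type) (K : ι → Subgroup G) (hcomm : ∀ i, ∀ g ∈ K i, ∀ h ∈ K i, g * h = h * g)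
    (p r : ι → ℕ) (hp : ∀ i, (p i).Prime) (hK : ∀ i, Nat.card (K i) = p i ^ r i)
    (ψ : ∀ i, K i →* Eˣ) (hψ : ∀ i, ψ i ≠ 1)
    -- the Lefschetz formula
    (hfin : ∀ i, ∀ m : ℕ, 1 ≤ m → ∀ g ∈ K i, {x : S | (Fr ^ m) x = g • x}.Finite)
    (hL : ∀ i, ∀ m : ℕ, 1 ≤ m → ∀ g ∈ K i, c m + (-1) ^ n * LinearMap.trace E V (Φ ^ m * ρ g)
      = ({x : S | (Fr ^ m) x = g • x}.ncard : E))
    -- the zeta functions modulo the primes
    (H : ∀ i, (ZMod (p i))[X]) (hH : ∀ i, ZetaMod E (p i) n (orbCount Fr (K i) (ψ i)) (H i))
    (hsq : ∀ i, Squarefree (H i))
    (hdeg : ∀ i, (H i).natDegree = Module.finrank E (eigenPart ρ (K i) (ψ i)))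
    -- the parts generate the cohomology
    (hgen : (⨆ i, ⨆ g : G, (eigenPart ρ (K i) (ψ i)).map (ρ g)) ⊔ (⨆ α, Φ.eigenspace α) = ⊤) :
    Φ.IsSemisimple :=
  (main_sym Fr hFr Φ ρ hc n c K hcomm p r hp hK hfin hL ψ hψ H hH (⨆ α, Φ.eigenspace α)
    (fun _ hv => iSup_stable (Commute.refl Φ) hv) hgen).1 (fun i => ⟨hsq i, hdeg i⟩) le_rfl

end Pool.Agent.Results.MP_93fb11_ag.SymmetryGroups
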